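import Mathlib

/-!
# Retreat depth, ends and connected spheres in rooted graphs and in Cayley graphs
-/

set_option autoImplicit false

namespace Pool.Agent.Q33.RDE

/-- The (undirected, simple) Cayley graph of the group `G` with respect to `S`. -/
def cay {G : Type} [Group G] (S : Set G) : SimpleGraph G where
  Adj g h := g ≠ h ∧ ∃ s ∈ S, h = g * s ∨ g = h * s
  symm := ⟨by
    rintro g h ⟨hne, s, hs, h1 | h1⟩
    · exact ⟨hne.symm, s, hs, Or.inr h1⟩
    · exact ⟨hne.symm, s, hs, Or.inl h1⟩⟩
  loopless := ⟨fun g h => h.1 rfl⟩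

variable {V : Type}

/-- `g` and `h` lie in `X`, in the same component of the subgraph induced on `X` -/
def Same (Γ : SimpleGraph V) (X : Set V) (g h : V) : Prop :=
  ∃ (hg : g ∈ X) (hh : h ∈ X), (Γ.induce X).Reachable ⟨g, hg⟩ ⟨h, hh⟩

/-- the complement of the ball of radius `n - 1` around `o` -/
def far (Γ : SimpleGraph V) (o : V) (n : ℕ) : Set V := {g | n ≤ Γ.dist o g}

/-- the component of `g` in the complement of the ball of radius `n - 1` -/
def comp (Γ : SimpleGraph V) (o : V) (n : ℕ) (g : V) : Set V := {h | Same Γ (far Γ o n) g h}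

/-- Bounded retreat depth: there is `D` such that every `g` lies in an infinite component of the
complement of the ball of radius `|g| - d - 1` for some `d ≤ D`; that is, the retreat depth of every
`g` is at most `D`. -/
def BoundedRetreat (Γ : SimpleGraph V) (o : V) : Prop :=
  ∃ D : ℕ, ∀ g : V, ∃ d ≤ D, (comp Γ o (Γ.dist o g - d) g).Infinite

/-- One end: for every `n` the complement of the ball of radius `n - 1` has exactly one infinite
component. -/
def OneEnded (Γ : SimpleGraph V) (o : V) : Prop :=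
  ∀ n : ℕ, (∃ g, (comp Γ o n g).Infinite) ∧
    ∀ g h, (comp Γ o n g).Infinite → (comp Γ o n h).Infinite → h ∈ comp Γ o n g

/-- `S(n, r)^∞`: the vertices of the ball of radius `n + r` that lie in an infinite component of the
complement of the ball of radius `n - 1`. -/
def sph (Γ : SimpleGraph V) (o : V) (n r : ℕ) : Set V :=
  {g | Γ.dist o g ≤ n + r ∧ (comp Γ o n g).Infinite}

/-- Connected spheres: one end, and the connection thickness is bounded, that is, there is `R` such
that for every `n` the set `S(n, r)^∞` is connected for some `r ≤ R`. -/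
def ConnectedSpheres (Γ : SimpleGraph V) (o : V) : Prop :=
  OneEnded Γ o ∧ ∃ R : ℕ, ∀ n : ℕ, ∃ r ≤ R, (Γ.induce (sph Γ o n r)).Connected

section basic

variable {Γ : SimpleGraph V} {X Y : Set V} {g h k : V}

lemma Same.refl (hg : g ∈ X) : Same Γ X g g := ⟨hg, hg, SimpleGraph.Reachable.refl _⟩

lemma Same.symm (h1 : Same Γ X g h) : Same Γ X h g := by
  obtain ⟨a, b, c⟩ := h1
  exact ⟨b, a, c.symm⟩

lemma Same.trans (h1 : Same Γ X g h) (h2 : Same Γ X h k) : Same Γ X g k := by
  obtain ⟨a, b, c⟩ := h1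
  obtain ⟨a', b', c'⟩ := h2
  exact ⟨a, b', c.trans c'⟩

lemma Same.left (h1 : Same Γ X g h) : g ∈ X := h1.1

lemma Same.right (h1 : Same Γ X g h) : h ∈ X := h1.2.1

lemma Same.adj (hg : g ∈ X) (hh : h ∈ X) (ha : Γ.Adj g h) : Same Γ X g h := by
  refine ⟨hg, hh, SimpleGraph.Adj.reachable ?_⟩
  exact ha

lemma Same.induct {I : V → Prop} (h1 : Same Γ X g h) (h0 : I g)
    (hs : ∀ u v, u ∈ X → v ∈ X → Γ.Adj u v → I u → I v) : I h := by
  obtain ⟨a, b, c⟩ := h1
  rw [SimpleGraph.reachable_iff_reflTransGen] at c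
  have key : ∀ z : X, Relation.ReflTransGen (Γ.induce X).Adj ⟨g, a⟩ z → I z.1 := by
    intro z hz
    induction hz with
    | refl => exact h0
    | tail h2 h3 ih => exact hs _ _ (Subtype.coe_prop _) (Subtype.coe_prop _) h3 ih
  exact key _ c

lemma Same.mono (hXY : X ⊆ Y) (h1 : Same Γ X g h) : Same Γ Y g h := by
  have hg := h1.left
  refine h1.induct (I := fun z => Same Γ Y g z) (Same.refl (hXY hg)) ?_
  intro u v hu hv ha ih
  exact ih.trans (Same.adj (hXY hu) (hXY hv) ha)

lemma connected_of {o : V} (ho : o ∈ X) (h1 : ∀ g ∈ X, Same Γ X g o) : (Γ.induce X).Connected := by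
  haveI : Nonempty X := ⟨⟨o, ho⟩⟩
  refine SimpleGraph.Connected.mk ?_
  intro u v
  obtain ⟨a, b, c⟩ := h1 u.1 u.2
  obtain ⟨a', b', c'⟩ := h1 v.1 v.2
  exact c.trans c'.symm

lemma same_of_connected (h1 : (Γ.induce X).Connected) (hg : g ∈ X) (hh : h ∈ X) : Same Γ X g h :=
  ⟨hg, hh, h1.preconnected _ _⟩

/-- A function that behaves like the distance to `o` is the distance to `o`. -/
lemma dist_eq {Γ : SimpleGraph V} {o : V} (f : V → ℕ) (h0 : f o = 0)
    (h1 : ∀ u v, Γ.Adj u v → f v ≤ f u + 1)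
    (h2 : ∀ v, v ≠ o → ∃ u, Γ.Adj u v ∧ f v = f u + 1) (v : V) :
    Γ.dist o v = f v ∧ Γ.Reachable o v := by
  have hup : ∀ n : ℕ, ∀ v, f v = n → ∃ p : Γ.Walk o v, p.length = n := by
    intro n
    induction n with
    | zero =>
      intro v hv
      by_cases hvo : v = o
      · subst hvo
        exact ⟨SimpleGraph.Walk.nil, rfl⟩
      · obtain ⟨u, -, hu⟩ := h2 v hvo
        omega
    | succ n ih =>
      intro v hv
      by_cases hvo : v = o
      · subst hvo
        omega
      · obtain ⟨u, hu1, hu2⟩ := h2 v hvo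
        obtain ⟨p, hp⟩ := ih u (by omega)
        exact ⟨p.concat hu1, by rw [SimpleGraph.Walk.length_concat, hp]⟩
  obtain ⟨p, hp⟩ := hup (f v) v rfl
  have hlow : ∀ (u v : V) (q : Γ.Walk u v), f v ≤ f u + q.length := by
    intro u v q
    induction q with
    | nil => simp
    | cons ha q ih =>
      have := h1 _ _ ha
      rw [SimpleGraph.Walk.length_cons]
      omega
  refine ⟨le_antisymm ?_ ?_, ⟨p⟩⟩
  · rw [← hp]
    exact Γ.dist_le p
  · obtain ⟨q, hq⟩ := (SimpleGraph.Walk.reachable p).exists_walk_length_eq_dist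
    have := hlow _ _ q
    omega

end basic

end Pool.Agent.Q33.RDE
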