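import Pool.Agent.Q33.RDE.Defs

/-!
# Lamps on the edges of the 4-regular tree: the geometry of the state graph
-/

set_option autoImplicit false

namespace Pool.Agent.Q33.RDE

open FreeGroup

/-- words -/
abbrev L := List (Fin 2 × Bool)

/-- A state: the position of the walker (a reduced word) and the finite set of the lit lamps; the
edge of the tree between `a :: w` and `w` is represented by `a :: w`. -/
structure State where
  /-- the position -/
  pos : L
  /-- the lit lamps -/
  lamps : Finset L
  hpos : IsReduced pos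
  hlamps : ∀ e ∈ lamps, IsReduced e ∧ e ≠ []

lemma State.ext' {u v : State} (h1 : u.pos = v.pos) (h2 : u.lamps = v.lamps) : u = v := by
  cases u
  cases v
  simp only at h1 h2
  subst h1 h2
  rfl

/-- `v` is one step further from the root than `u`, and the lamps agree except perhaps at the edge
that is crossed -/
def Push (u v : State) : Prop :=
  ∃ s, v.pos = s :: u.pos ∧ ∀ e, e ≠ v.pos → (e ∈ v.lamps ↔ e ∈ u.lamps)

/-- the state graph -/
def stG : SimpleGraph State where
  Adj u v := Push u v ∨ Push v u
  symm := ⟨fun _ _ h => h.symm⟩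
  loopless := ⟨by
    rintro u (⟨s, h, -⟩ | ⟨s, h, -⟩) <;>
    · have := congrArg List.length h
      simp at this⟩

/-- the start -/
def st0 : State := ⟨[], ∅, IsReduced.nil, by simp⟩

lemma red_tail {s : Fin 2 × Bool} {w : L} (h : IsReduced (s :: w)) : IsReduced w := by
  rcases w with _ | ⟨b, w⟩
  · exact IsReduced.nil
  · exact (isReduced_cons_cons.1 h).2

lemma red_suffix {v w : L} (h : IsReduced w) (h1 : v <:+ w) : IsReduced v := by
  obtain ⟨t, rfl⟩ := h1
  induction t with
  | nil => exact h
  | cons s t ih => exact ih (red_tail h)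

/-- the nonempty suffixes -/
def suf (w : L) : Finset L := w.tails.toFinset.erase []

lemma mem_suf {v w : L} : v ∈ suf w ↔ v ≠ [] ∧ v <:+ w := by
  simp [suf]

lemma card_suf (w : L) : (suf w).card = w.length := by
  induction w with
  | nil => simp [suf]
  | cons s w ih =>
    have h1 : suf (s :: w) = insert (s :: w) (suf w) := by
      ext v
      rw [Finset.mem_insert, mem_suf, mem_suf, List.suffix_cons_iff]
      constructor
      · rintro ⟨h1, h2 | h2⟩
        · exact Or.inl h2
        · exact Or.inr ⟨h1, h2⟩
      · rintro (h | ⟨h1, h2⟩)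
        · exact ⟨by rw [h]; simp, Or.inl h⟩
        · exact ⟨h1, Or.inr h2⟩
    have h2 : s :: w ∉ suf w := by
      rw [mem_suf]
      rintro ⟨-, h⟩
      have := h.length_le
      simp at this
    rw [h1, Finset.card_insert_of_notMem h2, ih, List.length_cons]

/-- the edges of the subtree spanned by the root, the position and the lit lamps -/
def sp (u : State) : Finset L := suf u.pos ∪ u.lamps.biUnion suf

lemma mem_sp {u : State} {v : L} : v ∈ sp u ↔ v ≠ [] ∧ (v <:+ u.pos ∨ ∃ e ∈ u.lamps, v <:+ e) := by
  unfold sp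
  rw [Finset.mem_union, Finset.mem_biUnion, mem_suf]
  constructor
  · rintro (⟨h1, h2⟩ | ⟨e, he, h2⟩)
    · exact ⟨h1, Or.inl h2⟩
    · rw [mem_suf] at h2
      exact ⟨h2.1, Or.inr ⟨e, he, h2.2⟩⟩
  · rintro ⟨h1, h2 | ⟨e, he, h2⟩⟩
    · exact Or.inl ⟨h1, h2⟩
    · exact Or.inr ⟨e, he, mem_suf.2 ⟨h1, h2⟩⟩

lemma sp_red {u : State} {v : L} (h : v ∈ sp u) : IsReduced v := by
  rw [mem_sp] at h
  rcases h.2 with h1 | ⟨e, he, h1⟩
  · exact red_suffix u.hpos h1
  · exact red_suffix (u.hlamps e he).1 h1

lemma mem_sp_of_lamps {u : State} {v : L} (h : v ∈ u.lamps) : v ∈ sp u :=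
  mem_sp.2 ⟨(u.hlamps v h).2, Or.inr ⟨v, h, List.suffix_refl v⟩⟩

lemma suf_pos (u : State) : suf u.pos ⊆ sp u := Finset.subset_union_left

lemma length_pos_le (u : State) : u.pos.length ≤ (sp u).card := by
  rw [← card_suf]
  exact Finset.card_le_card (suf_pos u)

lemma length_lamp_le {u : State} {e : L} (he : e ∈ u.lamps) : e.length ≤ (sp u).card := by
  rw [← card_suf]
  refine Finset.card_le_card ?_
  intro v hv
  rw [mem_suf] at hv
  exact mem_sp.2 ⟨hv.1, Or.inr ⟨e, he, hv.2⟩⟩

lemma push_sp {u v : State} (h : Push u v) : sp v = insert v.pos (sp u) := by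
  obtain ⟨s, h1, h2⟩ := h
  ext w
  rw [Finset.mem_insert, mem_sp, mem_sp]
  constructor
  · rintro ⟨hw, h3 | ⟨e, he, h3⟩⟩
    · rw [h1, List.suffix_cons_iff] at h3
      rcases h3 with h3 | h3
      · exact Or.inl (by rw [h1, h3])
      · exact Or.inr ⟨hw, Or.inl h3⟩
    · by_cases hev : e = v.pos
      · rw [hev, h1, List.suffix_cons_iff] at h3
        rcases h3 with h3 | h3
        · exact Or.inl (by rw [h1, h3])
        · exact Or.inr ⟨hw, Or.inl h3⟩
      · exact Or.inr ⟨hw, Or.inr ⟨e, (h2 e hev).1 he, h3⟩⟩
  · rintro (hw | ⟨hw, h3 | ⟨e, he, h3⟩⟩)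
    · exact ⟨by rw [hw, h1]; simp, Or.inl (by rw [hw])⟩
    · exact ⟨hw, Or.inl (by rw [h1, List.suffix_cons_iff]; exact Or.inr h3)⟩
    · by_cases hev : e = v.pos
      · exact ⟨hw, Or.inl (by rw [← hev]; exact h3)⟩
      · exact ⟨hw, Or.inr ⟨e, (h2 e hev).2 he, h3⟩⟩

lemma push_length {u v : State} (h : Push u v) : v.pos.length = u.pos.length + 1 := by
  obtain ⟨s, h1, -⟩ := h
  rw [h1, List.length_cons]

/-- the length -/
def ell (u : State) : ℕ := 2 * (sp u).card - u.pos.length

lemma ell_add (u : State) : ell u + u.pos.length = 2 * (sp u).card := by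
  have := length_pos_le u
  unfold ell
  omega

lemma card_le_ell (u : State) : (sp u).card ≤ ell u := by
  have := length_pos_le u
  unfold ell
  omega

lemma push_ell_mem {u v : State} (h : Push u v) (h1 : v.pos ∈ sp u) : ell u = ell v + 1 := by
  have h2 := ell_add u
  have h3 := ell_add v
  have h4 := push_length h
  rw [push_sp h, Finset.insert_eq_of_mem h1] at h3
  omega

lemma push_ell_notMem {u v : State} (h : Push u v) (h1 : v.pos ∉ sp u) : ell v = ell u + 1 := by
  have h2 := ell_add u
  have h3 := ell_add v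
  have h4 := push_length h
  rw [push_sp h, Finset.card_insert_of_notMem h1] at h3
  omega

lemma cons_suffix_of_ne {v e : L} (h : v <:+ e) (hne : v ≠ e) : ∃ a, a :: v <:+ e := by
  obtain ⟨t, rfl⟩ := h
  rcases List.eq_nil_or_concat t with ht | ⟨t', a, ht⟩
  · subst ht
    exact absurd rfl hne
  · refine ⟨a, t', ?_⟩
    rw [ht]
    simp

lemma dist_ell (u : State) : stG.dist st0 u = ell u ∧ stG.Reachable st0 u := by
  refine dist_eq ell ?_ ?_ ?_ u
  · simp [ell, st0, sp, suf]
  · rintro u v (h | h)
    · by_cases h1 : v.pos ∈ sp u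
      · have := push_ell_mem h h1
        omega
      · have := push_ell_notMem h h1
        omega
    · by_cases h1 : u.pos ∈ sp v
      · have := push_ell_mem h h1
        omega
      · have := push_ell_notMem h h1
        omega
  · intro v hv
    by_cases hs : ∃ s, s :: v.pos ∈ sp v
    · obtain ⟨s, hs⟩ := hs
      let u : State := ⟨s :: v.pos, v.lamps, sp_red hs, v.hlamps⟩
      have hp : Push v u := ⟨s, rfl, fun e _ => Iff.rfl⟩
      exact ⟨u, Or.inr hp, push_ell_mem hp hs⟩
    · push Not at hs
      rcases hvp : v.pos with _ | ⟨s, c⟩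
      · exfalso
        apply hv
        refine State.ext' hvp ?_
        change v.lamps = ∅
        rw [Finset.eq_empty_iff_forall_notMem]
        intro e he
        have h1 := mem_sp.1 (mem_sp_of_lamps he)
        obtain ⟨a, ha⟩ := cons_suffix_of_ne (v := []) (List.nil_suffix (l := e)) (Ne.symm h1.1)
        refine hs a ?_
        rw [hvp, mem_sp]
        exact ⟨by simp, Or.inr ⟨e, he, ha⟩⟩
      · let u : State := ⟨c, v.lamps.erase v.pos, red_tail (s := s) (by rw [← hvp]; exact v.hpos),
          fun e he => v.hlamps e (Finset.mem_of_mem_erase he)⟩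
        have hp : Push u v := by
          refine ⟨s, hvp, fun e he => ?_⟩
          change _ ↔ e ∈ v.lamps.erase v.pos
          rw [Finset.mem_erase]
          tauto
        refine ⟨u, Or.inl hp, push_ell_notMem hp ?_⟩
        rw [mem_sp]
        rintro ⟨-, h1 | ⟨e, he, h1⟩⟩
        · have h2 := h1.length_le
          rw [hvp] at h2
          simp [u] at h2
        · have he' : e ∈ v.lamps.erase v.pos := he
          rw [Finset.mem_erase] at he'
          obtain ⟨a, ha⟩ := cons_suffix_of_ne h1 (Ne.symm he'.1)
          refine hs a ?_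
          rw [mem_sp]
          exact ⟨by simp, Or.inr ⟨e, he'.2, ha⟩⟩

lemma mem_far {n : ℕ} {u : State} : u ∈ far stG st0 n ↔ n ≤ ell u := by
  unfold far
  rw [Set.mem_ofPred_eq, (dist_ell u).1]

/-- a letter that can be pushed, different from a given one -/
lemma exists_push (w : L) (hw : IsReduced w) (a : Fin 2 × Bool) : ∃ s, s ≠ a ∧ IsReduced (s :: w) := by
  rcases w with _ | ⟨b, w⟩
  · by_cases ha : a = (0, true)
    · exact ⟨(1, true), by rw [ha]; decide, IsReduced.singleton⟩
    · exact ⟨(0, true), Ne.symm ha, IsReduced.singleton⟩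
  · by_cases hab : b = a
    · refine ⟨(b.1 + 1, true), ?_, ?_⟩
      · rw [← hab]
        intro h
        have := congrArg Prod.fst h
        simp at this
      · rw [isReduced_cons_cons]
        refine ⟨fun h => ?_, hw⟩
        simp at h
    · refine ⟨b, hab, ?_⟩
      rw [isReduced_cons_cons]
      exact ⟨fun _ => rfl, hw⟩

lemma extend_out (v : L) (R : ℕ) (j : ℕ) : ∀ w : L, IsReduced w → ¬ v <:+ w → w.length + j = R →
    ∃ w', IsReduced w' ∧ w <:+ w' ∧ w'.length = R ∧ ¬ v <:+ w' := by
  induction j with
  | zero =>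
    intro w hw hv hR
    exact ⟨w, hw, List.suffix_refl w, by omega, hv⟩
  | succ j ih =>
    intro w hw hv hR
    obtain ⟨s, hs1, hs2⟩ := exists_push w hw (v.headD (0, true))
    have h1 : ¬ v <:+ s :: w := by
      rw [List.suffix_cons_iff]
      rintro (h | h)
      · rw [h] at hs1
        exact hs1 rfl
      · exact hv h
    obtain ⟨w', h2, h3, h4, h5⟩ := ih (s :: w) hs2 h1 (by rw [List.length_cons]; omega)
    exact ⟨w', h2, (List.suffix_cons s w).trans h3, h4, h5⟩

/-- all edges of the ball of radius `R` -/
noncomputable def EB (R : ℕ) : Finset L :=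
  ((List.finite_length_le (Fin 2 × Bool) R).subset
    (t := {w : L | (IsReduced w ∧ w ≠ []) ∧ w.length ≤ R}) (fun _ h => h.2)).toFinset

lemma mem_EB {R : ℕ} {w : L} : w ∈ EB R ↔ (IsReduced w ∧ w ≠ []) ∧ w.length ≤ R := by
  unfold EB
  rw [Set.Finite.mem_toFinset]
  rfl

lemma EB_suffix {R : ℕ} {v w : L} (h : w ∈ EB R) (hv : v ≠ []) (h1 : v <:+ w) : v ∈ EB R := by
  rw [mem_EB] at h ⊢
  exact ⟨⟨red_suffix h.1.1 h1, hv⟩, h1.length_le.trans h.2⟩

lemma sp_subset_EB {R : ℕ} {u : State} (h1 : u.pos.length ≤ R) (h2 : ∀ e ∈ u.lamps, e.length ≤ R) :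
    sp u ⊆ EB R := by
  intro v hv
  have hr := sp_red hv
  rw [mem_sp] at hv
  rw [mem_EB]
  refine ⟨⟨hr, hv.1⟩, ?_⟩
  rcases hv.2 with h | ⟨e, he, h⟩
  · exact h.length_le.trans h1
  · exact h.length_le.trans (h2 e he)

lemma red_replicate (a : Fin 2 × Bool) (k : ℕ) : IsReduced (List.replicate k a) := by
  induction k with
  | zero => exact IsReduced.nil
  | succ k ih =>
    rcases k with _ | k
    · exact IsReduced.singleton
    · rw [List.replicate_succ, List.replicate_succ, isReduced_cons_cons]
      rw [List.replicate_succ] at ih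
      exact ⟨fun _ => rfl, ih⟩

/-- the position `a ^ k`, all lamps of the ball of radius `R` are lit -/
noncomputable def ray (a : Fin 2 × Bool) (R k : ℕ) : State :=
  ⟨List.replicate k a, EB R, red_replicate a k, fun _ he => (mem_EB.1 he).1⟩

lemma sp_ray (a : Fin 2 × Bool) (R k : ℕ) (hk : k ≤ R) : sp (ray a R k) = EB R := by
  refine le_antisymm (sp_subset_EB (by simpa [ray] using hk) fun e he => (mem_EB.1 he).2) ?_
  intro e he
  exact mem_sp_of_lamps (u := ray a R k) he

lemma push_ray (a : Fin 2 × Bool) (R k : ℕ) : Push (ray a R k) (ray a R (k + 1)) :=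
  ⟨a, by simp [ray, List.replicate_succ], fun _ _ => Iff.rfl⟩

lemma R_le_card (R : ℕ) : R ≤ (EB R).card := by
  have h1 := length_pos_le (ray (0, true) R R)
  rw [sp_ray _ R R le_rfl] at h1
  simpa [ray] using h1

lemma ell_ray (a : Fin 2 × Bool) (R k : ℕ) : ell (ray a R (R + k)) + R = 2 * (EB R).card + k := by
  induction k with
  | zero =>
    have h1 := ell_add (ray a R (R + 0))
    rw [sp_ray a R _ (by omega)] at h1
    simp only [ray, List.length_replicate] at h1
    simpa [ray] using h1
  | succ k ih =>
    have h1 : (ray a R (R + k + 1)).pos ∉ sp (ray a R (R + k)) := by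
      rw [mem_sp]
      rintro ⟨-, h | ⟨e, he, h⟩⟩
      · have := h.length_le
        simp [ray] at this
      · have h3 := h.length_le
        have h4 := (mem_EB.1 he).2
        simp only [ray, List.length_replicate] at h3
        omega
    have h2 := push_ell_notMem (push_ray a R (R + k)) h1
    rw [← add_assoc, h2]
    omega

/-! ### Unbounded retreat depth -/

lemma trapped {R k : ℕ} (hk : k < R) {u : State}
    (h : u ∈ comp stG st0 (2 * (EB R).card - k) (ray (0, true) R 0)) :
    u.pos.length ≤ k ∧ ∀ e, k < e.length → e ∈ u.lamps → e ∈ EB R := by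
  refine Same.induct (I := fun u => u.pos.length ≤ k ∧ ∀ e, k < e.length → e ∈ u.lamps → e ∈ EB R)
    h ⟨by simp [ray], fun e _ he => he⟩ ?_
  rintro u v hu hv (h1 | h1) ⟨h2, h3⟩
  · have h4 := push_length h1
    rcases Nat.lt_or_ge k v.pos.length with h5 | h5
    · exfalso
      have h6 : sp v ⊆ EB R := by
        refine sp_subset_EB (by omega) ?_
        intro e he
        rcases Nat.lt_or_ge k e.length with h7 | h7
        · by_cases hev : e = v.pos
          · rw [hev]
            omega
          · obtain ⟨s, -, h8⟩ := h1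
            exact (mem_EB.1 (h3 e h7 ((h8 e hev).1 he))).2
        · omega
      have h7 := Finset.card_le_card h6
      have h8 := ell_add v
      rw [mem_far] at hv
      omega
    · refine ⟨h5, fun e he1 he2 => ?_⟩
      have hev : e ≠ v.pos := by
        rintro rfl
        omega
      obtain ⟨s, -, h8⟩ := h1
      exact h3 e he1 ((h8 e hev).1 he2)
  · have h4 := push_length h1
    refine ⟨by omega, fun e he1 he2 => ?_⟩
    have hev : e ≠ u.pos := by
      rintro rfl
      omega
    obtain ⟨s, -, h8⟩ := h1
    exact h3 e he1 ((h8 e hev).2 he2)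

/-- finitely many states have their position and their lamps in a ball -/
lemma finite_inside (R : ℕ) : {u : State | u.pos.length ≤ R ∧ u.lamps ⊆ EB R}.Finite := by
  have h1 := (List.finite_length_le (Fin 2 × Bool) R).prod (Finset.finite_toSet (EB R).powerset)
  refine Set.Finite.of_finite_image (f := fun u : State => (u.pos, u.lamps)) (h1.subset ?_) ?_
  · rintro _ ⟨u, hu, rfl⟩
    exact ⟨hu.1, Finset.mem_coe.2 (Finset.mem_powerset.2 hu.2)⟩
  · intro u _ v _ huv
    simp only [Prod.mk.injEq] at huv
    exact State.ext' huv.1 huv.2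

theorem not_boundedRetreat : ¬ BoundedRetreat stG st0 := by
  rintro ⟨D, hD⟩
  obtain ⟨d, hd, hinf⟩ := hD (ray (0, true) (D + 1) 0)
  refine hinf ((finite_inside (D + 1)).subset ?_)
  intro u hu
  have h1 : stG.dist st0 (ray (0, true) (D + 1) 0) = 2 * (EB (D + 1)).card := by
    have h2 := ell_add (ray (0, true) (D + 1) 0)
    rw [sp_ray _ _ 0 (by omega)] at h2
    rw [(dist_ell _).1, ← h2]
    simp [ray]
  rw [h1] at hu
  have h2 := trapped (R := D + 1) (k := d) (by omega) hu
  refine ⟨by omega, fun e he => ?_⟩
  rcases Nat.lt_or_ge d e.length with h3 | h3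
  · exact h2.2 e h3 he
  · exact mem_EB.2 ⟨u.hlamps e he, by omega⟩

/-! ### Spheres that are not connected -/

lemma ray_comp (a : Fin 2 × Bool) (R : ℕ) :
    (comp stG st0 (2 * (EB R).card - R) (ray a R R)).Infinite := by
  have hfar : ∀ k, ray a R (R + k) ∈ far stG st0 (2 * (EB R).card - R) := by
    intro k
    rw [mem_far]
    have := ell_ray a R k
    omega
  refine Set.infinite_of_injective_forall_mem (f := fun k : ℕ => ray a R (R + k)) ?_ ?_
  · intro i j hij
    have := congrArg (fun u : State => u.pos.length) hij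
    simp only [ray, List.length_replicate] at this
    omega
  · intro k
    change Same _ _ _ _
    induction k with
    | zero => exact Same.refl (hfar 0)
    | succ k ih => exact ih.trans (Same.adj (hfar k) (hfar (k + 1)) (Or.inl (push_ray a R (R + k))))

lemma ray_sph (a : Fin 2 × Bool) (R r : ℕ) :
    ray a R R ∈ sph stG st0 (2 * (EB R).card - R) r := by
  refine ⟨?_, ray_comp a R⟩
  rw [(dist_ell _).1]
  have := ell_ray a R 0
  rw [add_zero] at this
  omega

lemma separated {R r : ℕ} (hr : r < R) {u : State}
    (h : Same stG (sph stG st0 (2 * (EB R).card - R) r) (ray (0, true) R R) u) :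
    List.replicate (R - r) ((0, true) : Fin 2 × Bool) <:+ u.pos ∨
      (u.pos.length < R ∧ (sp u).card < (EB R).card) := by
  set v : L := List.replicate (R - r) ((0, true) : Fin 2 × Bool) with hvdef
  have hvl : v.length = R - r := by rw [hvdef, List.length_replicate]
  have hEB := R_le_card R
  refine (Same.induct (I := fun u => (∀ e, IsReduced e → ¬ v <:+ e → R ≤ e.length →
    (e ∈ u.lamps ↔ e.length = R)) ∧ (v <:+ u.pos ∨ (u.pos.length < R ∧ (sp u).card < (EB R).card)))
    h ⟨?_, Or.inl ?_⟩ ?_).2
  · intro e he1 _ he2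
    change e ∈ EB R ↔ _
    rw [mem_EB]
    constructor
    · intro h3
      omega
    · intro h3
      refine ⟨⟨he1, ?_⟩, by omega⟩
      rintro rfl
      simp at h3
      omega
  · refine ⟨List.replicate r ((0, true) : Fin 2 × Bool), ?_⟩
    rw [hvdef]
    simp only [ray]
    rw [List.replicate_append_replicate]
    congr 1
    omega
  · rintro u u' hu hu' h1 ⟨h2, h3⟩
    have hlow : 2 * (EB R).card - R ≤ ell u' := by
      obtain ⟨w, hw⟩ := hu'.2.nonempty
      exact mem_far.1 (Same.left hw)
    have hupp : ell u' ≤ 2 * (EB R).card - R + r := by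
      have := hu'.1
      rwa [(dist_ell _).1] at this
    have hadd := ell_add u'
    rcases h1 with h1 | h1
    · obtain ⟨s, hs1, hs2⟩ := id h1
      have hlen := push_length h1
      have key : ¬ v <:+ u'.pos → u'.pos.length < R ∧ (sp u').card < (EB R).card := by
        intro hv
        have hvu : ¬ v <:+ u.pos := by
          intro hvu
          apply hv
          rw [hs1, List.suffix_cons_iff]
          exact Or.inr hvu
        obtain ⟨h4, h5⟩ := h3.resolve_left hvu
        obtain ⟨w, hw1, hw2, hw3, hw4⟩ := extend_out v R (R - u'.pos.length) u'.pos u'.hpos hv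
          (by omega)
        have hw5 : w ∈ u.lamps := (h2 w hw1 hw4 (by omega)).2 hw3
        have hmem : u'.pos ∈ sp u := mem_sp.2 ⟨by rw [hs1]; simp, Or.inr ⟨w, hw5, hw2⟩⟩
        have hsp : sp u' = sp u := by
          rw [push_sp h1, Finset.insert_eq_of_mem hmem]
        rw [hsp] at hadd ⊢
        refine ⟨?_, h5⟩
        by_contra hcon
        omega
      refine ⟨?_, ?_⟩
      · intro e he1 he2 he3
        by_cases hev : e = u'.pos
        · exfalso
          rw [hev] at he2 he3
          have := (key he2).1
          omega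
        · rw [hs2 e hev]
          exact h2 e he1 he2 he3
      · by_cases hv : v <:+ u'.pos
        · exact Or.inl hv
        · exact Or.inr (key hv)
    · obtain ⟨s, hs1, hs2⟩ := id h1
      have hlen := push_length h1
      refine ⟨?_, ?_⟩
      · intro e he1 he2 he3
        by_cases hev : e = u.pos
        · exfalso
          rw [hev] at he2 he3
          have := (h3.resolve_left he2).1
          omega
        · rw [← hs2 e hev]
          exact h2 e he1 he2 he3
      · by_cases hv : v <:+ u'.pos
        · exact Or.inl hv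
        · refine Or.inr ?_
          rcases h3 with h3 | ⟨h4, h5⟩
          · rw [hs1, List.suffix_cons_iff] at h3
            have h6 := h3.resolve_right hv
            have h7 := congrArg List.length h6
            rw [List.length_cons, hvl] at h7
            omega
          · refine ⟨by omega, lt_of_le_of_lt (Finset.card_le_card ?_) h5⟩
            rw [push_sp h1]
            exact Finset.subset_insert _ _

theorem not_connectedSpheres : ¬ ConnectedSpheres stG st0 := by
  rintro ⟨-, R, hR⟩
  obtain ⟨r, hr, hc⟩ := hR (2 * (EB (R + 1)).card - (R + 1))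
  have h1 := same_of_connected hc (ray_sph (0, true) (R + 1) r) (ray_sph (1, true) (R + 1) r)
  have h2 := separated (by omega) h1
  rcases h2 with h2 | h2
  · have h3 : ((0, true) : Fin 2 × Bool) ∈ (ray (1, true) (R + 1) (R + 1)).pos := by
      refine h2.subset ?_
      rw [List.mem_replicate]
      exact ⟨by omega, rfl⟩
    simp [ray] at h3
  · have := h2.1
    simp [ray] at this

/-! ### One end -/

/-- the state with a given position and given lamps -/
def mkS (c : L) (A : Finset L) (hc : IsReduced c) (hA : ∀ e ∈ A, IsReduced e ∧ e ≠ []) : State :=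
  ⟨c, A, hc, hA⟩

lemma far_of_lamp {n : ℕ} {u : State} {e : L} (he : e ∈ u.lamps) (hn : n ≤ e.length) :
    u ∈ far stG st0 n := by
  rw [mem_far]
  exact hn.trans ((length_lamp_le he).trans (card_le_ell u))

lemma move {n : ℕ} {A : Finset L} (hA : ∀ e ∈ A, IsReduced e ∧ e ≠ []) {e : L} (he : e ∈ A)
    (hn : n ≤ e.length) : ∀ (c : L) (hc : IsReduced c),
    Same stG (far stG st0 n) (mkS c A hc hA) (mkS [] A IsReduced.nil hA) := by
  intro c
  induction c with
  | nil =>
    intro hc
    exact Same.refl (far_of_lamp (u := mkS [] A hc hA) he hn)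
  | cons s c ih =>
    intro hc
    refine Same.trans (Same.adj (far_of_lamp (u := mkS (s :: c) A hc hA) he hn)
      (far_of_lamp (u := mkS c A (red_tail hc) hA) he hn) (Or.inr ?_)) (ih (red_tail hc))
    exact ⟨s, rfl, fun _ _ => Iff.rfl⟩

lemma toggle {n : ℕ} {A A' : Finset L} (hA : ∀ e ∈ A, IsReduced e ∧ e ≠ [])
    (hA' : ∀ e ∈ A', IsReduced e ∧ e ≠ []) {e : L} (he : e ∈ A) (he' : e ∈ A')
    (hn : n ≤ e.length) (w : L) (hw : IsReduced w ∧ w ≠ []) (h : ∀ z, z ≠ w → (z ∈ A ↔ z ∈ A')) :
    Same stG (far stG st0 n) (mkS [] A IsReduced.nil hA) (mkS [] A' IsReduced.nil hA') := by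
  obtain ⟨s, c, rfl⟩ := List.exists_cons_of_ne_nil hw.2
  refine (move hA he hn (s :: c) hw.1).symm.trans ?_
  refine Same.trans ?_ (move hA' he' hn c (red_tail hw.1))
  refine Same.adj (far_of_lamp (u := mkS (s :: c) A hw.1 hA) he hn)
      (far_of_lamp (u := mkS c A' (red_tail hw.1) hA') he' hn) (Or.inr ?_)
  exact ⟨s, rfl, h⟩

lemma change {n : ℕ} {A' : Finset L} (hA' : ∀ e ∈ A', IsReduced e ∧ e ≠ []) {e : L} (he' : e ∈ A')
    (hn : n ≤ e.length) (D : Finset L) (hD : ∀ e ∈ D, IsReduced e ∧ e ≠ []) :
    ∀ (A : Finset L) (hA : ∀ e ∈ A, IsReduced e ∧ e ≠ []) (_ : e ∈ A),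
      (∀ z, z ∉ D → (z ∈ A ↔ z ∈ A')) →
    Same stG (far stG st0 n) (mkS [] A IsReduced.nil hA) (mkS [] A' IsReduced.nil hA') := by
  classical
  induction D using Finset.induction_on with
  | empty =>
    intro A hA he h
    have hAA : A = A' := by
      ext z
      exact h z (by simp)
    subst hAA
    exact Same.refl (far_of_lamp (u := mkS [] A IsReduced.nil hA) he hn)
  | insert w D hw ih =>
    intro A hA he h
    by_cases hwA : w ∈ A'
    · have hB : ∀ e ∈ insert w A, IsReduced e ∧ e ≠ [] := by
        intro z hz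
        rcases Finset.mem_insert.1 hz with rfl | hz
        · exact hA' _ hwA
        · exact hA z hz
      refine (toggle hA hB he (Finset.mem_insert_of_mem he) hn w (hA' w hwA) ?_).trans
        (ih (fun z hz => hD z (Finset.mem_insert_of_mem hz)) _ hB (Finset.mem_insert_of_mem he) ?_)
      · intro z hz
        rw [Finset.mem_insert]
        tauto
      · intro z hz
        rw [Finset.mem_insert]
        by_cases hzw : z = w
        · subst hzw
          tauto
        · have := h z (by rw [Finset.mem_insert]; tauto)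
          tauto
    · have hew : e ≠ w := by
        rintro rfl
        exact hwA he'
      have hB : ∀ e ∈ A.erase w, IsReduced e ∧ e ≠ [] := fun z hz => hA z (Finset.mem_of_mem_erase hz)
      have heB : e ∈ A.erase w := Finset.mem_erase.2 ⟨hew, he⟩
      refine (toggle hA hB he heB hn w (hD w (Finset.mem_insert_self _ _)) ?_).trans
        (ih (fun z hz => hD z (Finset.mem_insert_of_mem hz)) _ hB heB ?_)
      · intro z hz
        rw [Finset.mem_erase]
        tauto
      · intro z hz
        rw [Finset.mem_erase]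
        by_cases hzw : z = w
        · subst hzw
          tauto
        · have := h z (by rw [Finset.mem_insert]; tauto)
          tauto

/-- the base state: one far lamp is lit -/
def base (n : ℕ) : State :=
  mkS [] {List.replicate (n + 1) ((0, true) : Fin 2 × Bool)} IsReduced.nil (by
    intro e he
    rw [Finset.mem_singleton] at he
    subst he
    exact ⟨red_replicate _ _, by simp⟩)

lemma to_base {n : ℕ} {u : State} {e : L} (he : e ∈ u.lamps) (hn : n ≤ e.length) :
    Same stG (far stG st0 n) u (base n) := by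
  classical
  set w : L := List.replicate (n + 1) ((0, true) : Fin 2 × Bool) with hw
  have hwr : IsReduced w ∧ w ≠ [] := ⟨red_replicate _ _, by simp [hw]⟩
  have hB : ∀ e ∈ insert w u.lamps, IsReduced e ∧ e ≠ [] := by
    intro z hz
    rcases Finset.mem_insert.1 hz with rfl | hz
    · exact hwr
    · exact u.hlamps z hz
  refine (move u.hlamps he hn u.pos u.hpos).trans ?_
  refine (toggle u.hlamps hB he (Finset.mem_insert_of_mem he) hn w hwr ?_).trans ?_
  · intro z hz
    rw [Finset.mem_insert]
    tauto
  · refine change (e := w) _ (Finset.mem_singleton_self w) (by rw [hw, List.length_replicate]; omega)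
      u.lamps u.hlamps _ hB (Finset.mem_insert_self _ _) ?_
    intro z hz
    rw [Finset.mem_insert, Finset.mem_singleton]
    tauto

lemma base_mem {n : ℕ} {g : State} (hg : (comp stG st0 n g).Infinite) : base n ∈ comp stG st0 n g := by
  classical
  obtain ⟨u, hu, hu2⟩ : ∃ u ∈ comp stG st0 n g, ¬ (u.pos.length ≤ n ∧ u.lamps ⊆ EB n) := by
    by_contra hcon
    push Not at hcon
    exact hg ((finite_inside n).subset fun u hu => hcon u hu)
  by_cases h1 : ∃ e ∈ u.lamps, n ≤ e.length
  · obtain ⟨e, he, hn⟩ := h1
    exact Same.trans hu (to_base he hn)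
  · push Not at h1
    have h2 : n < u.pos.length := by
      by_contra hcon
      refine hu2 ⟨by omega, fun e he => mem_EB.2 ⟨u.hlamps e he, (h1 e he).le⟩⟩
    obtain ⟨s, -, hs⟩ := exists_push u.pos u.hpos (0, true)
    let u' : State := ⟨s :: u.pos, insert (s :: u.pos) u.lamps, hs, by
      intro z hz
      rcases Finset.mem_insert.1 hz with rfl | hz
      · exact ⟨hs, by simp⟩
      · exact u.hlamps z hz⟩
    have hp : Push u u' := by
      refine ⟨s, rfl, fun e he => ?_⟩
      change e ∈ insert (s :: u.pos) u.lamps ↔ _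
      rw [Finset.mem_insert]
      have he' : e ≠ s :: u.pos := he
      tauto
    have hmem : s :: u.pos ∈ u'.lamps := Finset.mem_insert_self _ _
    have hlen : n ≤ (s :: u.pos).length := by
      rw [List.length_cons]
      omega
    exact Same.trans hu (Same.trans (Same.adj (Same.right hu) (far_of_lamp hmem hlen) (Or.inl hp))
      (to_base hmem hlen))

theorem oneEnded : OneEnded stG st0 := by
  intro n
  refine ⟨⟨base n, ?_⟩, ?_⟩
  · refine Set.infinite_of_injective_forall_mem (f := fun k : ℕ =>
      mkS (List.replicate k (0, true)) _ (red_replicate _ _) (base n).hlamps) ?_ ?_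
    · intro i j hij
      have := congrArg (fun u : State => u.pos.length) hij
      simp only [mkS, List.length_replicate] at this
      exact this
    · intro k
      exact (to_base (Finset.mem_singleton_self _) (by rw [List.length_replicate]; omega)).symm
  · intro g h hg hh
    exact Same.trans (base_mem hg) (base_mem hh).symm

end Pool.Agent.Q33.RDE
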