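import Pool.Agent.Q33.RDE.Defs

/-!
# The grid: bounded retreat depth and connected spheres
-/

set_option autoImplicit false

namespace Pool.Agent.Q33.RDE

open Multiplicative

/-- the standard generators of `ℤ²` and their inverses -/
def gridS : Set (Multiplicative (ℤ × ℤ)) :=
  {ofAdd (1, 0), ofAdd (-1, 0), ofAdd (0, 1), ofAdd (0, -1)}

/-- the grid -/
def grid : SimpleGraph (Multiplicative (ℤ × ℤ)) := cay gridS

/-- the point `(a, b)` -/
def pt (a b : ℤ) : Multiplicative (ℤ × ℤ) := ofAdd (a, b)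

lemma exists_pt (u : Multiplicative (ℤ × ℤ)) : ∃ a b, u = pt a b :=
  ⟨(toAdd u).1, (toAdd u).2, rfl⟩

lemma pt_inj {a b a' b' : ℤ} : pt a b = pt a' b' ↔ a = a' ∧ b = b' := by
  unfold pt
  rw [ofAdd.injective.eq_iff, Prod.mk.injEq]

lemma pt_mul (a b a' b' : ℤ) : pt a b * pt a' b' = pt (a + a') (b + b') := rfl

lemma grid_adj (a b a' b' : ℤ) : grid.Adj (pt a b) (pt a' b') ↔
    (a - a').natAbs + (b - b').natAbs = 1 := by
  have hS : ∀ s, s ∈ gridS ↔ (s = pt 1 0 ∨ s = pt (-1) 0 ∨ s = pt 0 1 ∨ s = pt 0 (-1)) := by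
    intro s
    simp only [gridS, Set.mem_insert_iff, Set.mem_singleton_iff, pt]
  unfold grid cay
  simp only [hS]
  constructor
  · rintro ⟨hne, s, hs, h | h⟩
    · rcases hs with rfl | rfl | rfl | rfl <;> rw [pt_mul, pt_inj] at h <;> omega
    · rcases hs with rfl | rfl | rfl | rfl <;> rw [pt_mul, pt_inj] at h <;> omega
  · intro h
    refine ⟨fun he => ?_, ?_⟩
    · rw [pt_inj] at he
      omega
    · have h1 : (a' = a + 1 ∧ b' = b) ∨ (a' = a - 1 ∧ b' = b) ∨ (a' = a ∧ b' = b + 1) ∨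
          (a' = a ∧ b' = b - 1) := by omega
      rcases h1 with ⟨rfl, rfl⟩ | ⟨rfl, rfl⟩ | ⟨rfl, rfl⟩ | ⟨rfl, rfl⟩
      · exact ⟨pt 1 0, Or.inl rfl, Or.inl (by rw [pt_mul, pt_inj]; omega)⟩
      · exact ⟨pt (-1) 0, Or.inr (Or.inl rfl), Or.inl (by rw [pt_mul, pt_inj]; omega)⟩
      · exact ⟨pt 0 1, Or.inr (Or.inr (Or.inl rfl)), Or.inl (by rw [pt_mul, pt_inj]; omega)⟩
      · exact ⟨pt 0 (-1), Or.inr (Or.inr (Or.inr rfl)), Or.inl (by rw [pt_mul, pt_inj]; omega)⟩

lemma pt_zero : pt 0 0 = 1 := rfl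

lemma grid_dist (a b : ℤ) : grid.dist 1 (pt a b) = a.natAbs + b.natAbs := by
  let f : Multiplicative (ℤ × ℤ) → ℕ := fun u => (toAdd u).1.natAbs + (toAdd u).2.natAbs
  have hf : ∀ a b, f (pt a b) = a.natAbs + b.natAbs := fun _ _ => rfl
  rw [← hf]
  refine (dist_eq f rfl ?_ ?_ (pt a b)).1
  · intro u v
    obtain ⟨a, b, rfl⟩ := exists_pt u
    obtain ⟨a', b', rfl⟩ := exists_pt v
    rw [grid_adj, hf, hf]
    omega
  · intro v hv
    obtain ⟨a, b, rfl⟩ := exists_pt v
    have h0 : ¬ (a = 0 ∧ b = 0) := by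
      rintro ⟨rfl, rfl⟩
      exact hv rfl
    have h1 : 0 < a ∨ a < 0 ∨ 0 < b ∨ b < 0 := by omega
    rcases h1 with h1 | h1 | h1 | h1
    · exact ⟨pt (a - 1) b, by rw [grid_adj]; omega, by rw [hf, hf]; omega⟩
    · exact ⟨pt (a + 1) b, by rw [grid_adj]; omega, by rw [hf, hf]; omega⟩
    · exact ⟨pt a (b - 1), by rw [grid_adj]; omega, by rw [hf, hf]; omega⟩
    · exact ⟨pt a (b + 1), by rw [grid_adj]; omega, by rw [hf, hf]; omega⟩

lemma mem_far_pt {n : ℕ} {a b : ℤ} : pt a b ∈ far grid 1 n ↔ n ≤ a.natAbs + b.natAbs := by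
  unfold far
  rw [Set.mem_setOf_eq, grid_dist]

/-- the ring -/
def ring (n : ℕ) : Set (Multiplicative (ℤ × ℤ)) := {u | n ≤ grid.dist 1 u ∧ grid.dist 1 u ≤ n + 1}

lemma mem_ring {n : ℕ} {a b : ℤ} :
    pt a b ∈ ring n ↔ n ≤ a.natAbs + b.natAbs ∧ a.natAbs + b.natAbs ≤ n + 1 := by
  unfold ring
  rw [Set.mem_setOf_eq, grid_dist]

lemma ring_step {n : ℕ} {a b a' b' : ℤ} (h1 : n ≤ a.natAbs + b.natAbs ∧ a.natAbs + b.natAbs ≤ n + 1)
    (h2 : n ≤ a'.natAbs + b'.natAbs ∧ a'.natAbs + b'.natAbs ≤ n + 1)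
    (h3 : (a - a').natAbs + (b - b').natAbs = 1) : Same grid (ring n) (pt a b) (pt a' b') :=
  Same.adj (mem_ring.2 h1) (mem_ring.2 h2) ((grid_adj _ _ _ _).2 h3)

lemma ring_conn (n : ℕ) (a b : ℤ) (h : a.natAbs + b.natAbs = n) :
    Same grid (ring n) (pt a b) (pt n 0) := by
  obtain ⟨j, hj⟩ : ∃ j : ℕ, (j : ℤ) = n - a := ⟨(n - a).toNat, by omega⟩
  induction j generalizing a b with
  | zero =>
    have ha : a = n := by omega
    have hb : b = 0 := by omega
    subst ha hb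
    exact Same.refl (mem_ring.2 (by omega))
  | succ j ih =>
    push_cast at hj
    rcases le_or_gt 0 a with ha | ha
    · rcases le_or_gt 0 b with hb | hb
      · refine (ring_step (a' := a + 1) (b' := b) ?_ ?_ ?_).trans
          ((ring_step (a' := a + 1) (b' := b - 1) ?_ ?_ ?_).trans (ih (a + 1) (b - 1) ?_ ?_)) <;>
          omega
      · refine (ring_step (a' := a + 1) (b' := b) ?_ ?_ ?_).trans
          ((ring_step (a' := a + 1) (b' := b + 1) ?_ ?_ ?_).trans (ih (a + 1) (b + 1) ?_ ?_)) <;>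
          omega
    · rcases le_or_gt 0 b with hb | hb
      · refine (ring_step (a' := a) (b' := b + 1) ?_ ?_ ?_).trans
          ((ring_step (a' := a + 1) (b' := b + 1) ?_ ?_ ?_).trans (ih (a + 1) (b + 1) ?_ ?_)) <;>
          omega
      · refine (ring_step (a' := a) (b' := b - 1) ?_ ?_ ?_).trans
          ((ring_step (a' := a + 1) (b' := b - 1) ?_ ?_ ?_).trans (ih (a + 1) (b - 1) ?_ ?_)) <;>
          omega

lemma ring_conn' (n : ℕ) (a b : ℤ) (h : a.natAbs + b.natAbs = n ∨ a.natAbs + b.natAbs = n + 1) :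
    Same grid (ring n) (pt a b) (pt n 0) := by
  rcases h with h | h
  · exact ring_conn n a b h
  · have h1 : 0 < a ∨ a < 0 ∨ 0 < b ∨ b < 0 := by omega
    rcases h1 with h1 | h1 | h1 | h1
    · exact (ring_step (a' := a - 1) (b' := b) (by omega) (by omega) (by omega)).trans
        (ring_conn n _ _ (by omega))
    · exact (ring_step (a' := a + 1) (b' := b) (by omega) (by omega) (by omega)).trans
        (ring_conn n _ _ (by omega))
    · exact (ring_step (a' := a) (b' := b - 1) (by omega) (by omega) (by omega)).trans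
        (ring_conn n _ _ (by omega))
    · exact (ring_step (a' := a) (b' := b + 1) (by omega) (by omega) (by omega)).trans
        (ring_conn n _ _ (by omega))

lemma axis_conn (n j : ℕ) : Same grid (far grid 1 n) (pt ((n + j : ℕ) : ℤ) 0) (pt n 0) := by
  induction j with
  | zero => exact Same.refl (mem_far_pt.2 (by omega))
  | succ j ih =>
    refine (Same.adj (mem_far_pt.2 (by omega)) (mem_far_pt.2 (by omega)) ?_).trans ih
    rw [grid_adj]
    omega

lemma far_conn (n : ℕ) (u : Multiplicative (ℤ × ℤ)) (hu : u ∈ far grid 1 n) :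
    Same grid (far grid 1 n) u (pt n 0) := by
  obtain ⟨a, b, rfl⟩ := exists_pt u
  rw [mem_far_pt] at hu
  obtain ⟨j, hj⟩ := Nat.exists_eq_add_of_le hu
  refine Same.trans ?_ (axis_conn n j)
  refine Same.mono ?_ (ring_conn (n + j) a b hj)
  intro v hv
  have := hv.1
  unfold far
  rw [Set.mem_setOf_eq]
  omega

lemma comp_eq (n : ℕ) (u : Multiplicative (ℤ × ℤ)) (hu : u ∈ far grid 1 n) :
    comp grid 1 n u = far grid 1 n := by
  ext v
  constructor
  · intro hv
    exact Same.right hv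
  · intro hv
    exact (far_conn n u hu).trans (far_conn n v hv).symm

lemma far_infinite (n : ℕ) : (far grid 1 n).Infinite := by
  refine Set.infinite_of_injective_forall_mem (f := fun j : ℕ => pt ((n + j : ℕ) : ℤ) 0) ?_ ?_
  · intro i j hij
    simp only [pt_inj] at hij
    omega
  · intro j
    rw [mem_far_pt]
    omega

lemma comp_infinite_iff (n : ℕ) (u : Multiplicative (ℤ × ℤ)) :
    (comp grid 1 n u).Infinite ↔ u ∈ far grid 1 n := by
  constructor
  · intro h
    obtain ⟨v, hv⟩ := h.nonempty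
    exact Same.left hv
  · intro h
    rw [comp_eq n u h]
    exact far_infinite n

theorem grid_retreat : BoundedRetreat grid 1 := by
  refine ⟨0, fun g => ⟨0, le_rfl, ?_⟩⟩
  rw [comp_infinite_iff]
  unfold far
  rw [Set.mem_setOf_eq]
  omega

theorem grid_oneEnded : OneEnded grid 1 := by
  intro n
  refine ⟨⟨pt n 0, ?_⟩, ?_⟩
  · rw [comp_infinite_iff, mem_far_pt]
    omega
  · intro g h hg hh
    rw [comp_infinite_iff] at hg hh
    rw [comp_eq n g hg]
    exact hh

theorem grid_spheres : ConnectedSpheres grid 1 := by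
  refine ⟨grid_oneEnded, 1, fun n => ⟨1, le_rfl, ?_⟩⟩
  have h1 : sph grid 1 n 1 = ring n := by
    ext u
    unfold sph ring
    rw [Set.mem_setOf_eq, Set.mem_setOf_eq, comp_infinite_iff]
    unfold far
    rw [Set.mem_setOf_eq]
    tauto
  rw [h1]
  refine connected_of (o := pt n 0) (mem_ring.2 (by omega)) ?_
  intro u hu
  obtain ⟨a, b, rfl⟩ := exists_pt u
  rw [mem_ring] at hu
  exact ring_conn' n a b (by omega)

end Pool.Agent.Q33.RDE
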