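import Pool.Agent.Q33.RDE.Geom
import Pool.Agent.Q33.RDE.Grid

/-!
# The lamplighter group over the edges of the tree of the free group of rank two
-/

set_option autoImplicit false

namespace Pool.Agent.Q33.RDE

open FreeGroup

/-- the free group of rank two -/
abbrev F := FreeGroup (Fin 2)

/-- the edges of its tree: `(g, i)` is the edge between `g` and `x_i g` -/
abbrev E := F × Fin 2

/-- pairs of an element of the free group and a finite set of edges -/
@[ext] structure W where
  /-- the position -/
  c : F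
  /-- the lit lamps -/
  A : Finset E

/-- the free group acts on the edges on the right -/
def rm (c : F) : E ≃ E := Equiv.prodCongr (Equiv.mulRight c) (Equiv.refl _)

lemma mem_rm (c : F) (B : Finset E) (e : E) :
    e ∈ B.map (rm c).toEmbedding ↔ (e.1 * c⁻¹, e.2) ∈ B := by
  rw [Finset.mem_map_equiv]
  rfl

instance : Mul W := ⟨fun x y => ⟨y.c * x.c, symmDiff x.A (y.A.map (rm x.c).toEmbedding)⟩⟩
instance : One W := ⟨⟨1, ∅⟩⟩
instance : Inv W := ⟨fun x => ⟨x.c⁻¹, x.A.map (rm x.c⁻¹).toEmbedding⟩⟩

lemma mul_c (x y : W) : (x * y).c = y.c * x.c := rfl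
lemma one_c : (1 : W).c = 1 := rfl
lemma inv_c (x : W) : (x⁻¹).c = x.c⁻¹ := rfl

lemma mem_mul (x y : W) (e : E) :
    e ∈ (x * y).A ↔ Xor (e ∈ x.A) ((e.1 * x.c⁻¹, e.2) ∈ y.A) := by
  change e ∈ symmDiff x.A (y.A.map (rm x.c).toEmbedding) ↔ _
  rw [Finset.mem_symmDiff, mem_rm]
  rfl

lemma mem_one (e : E) : e ∈ (1 : W).A ↔ False := by
  change e ∈ (∅ : Finset E) ↔ _
  simp

lemma mem_inv (x : W) (e : E) : e ∈ (x⁻¹).A ↔ (e.1 * x.c, e.2) ∈ x.A := by
  change e ∈ x.A.map (rm x.c⁻¹).toEmbedding ↔ _
  rw [mem_rm, inv_inv]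

instance : Group W := Group.ofLeftAxioms
  (fun x y z => by
    apply W.ext
    · simp only [mul_c, mul_assoc]
    · ext e
      simp only [mem_mul, mul_c, mul_inv_rev, mul_assoc]
      unfold Xor
      tauto)
  (fun x => by
    apply W.ext
    · simp only [mul_c, one_c, mul_one]
    · ext e
      simp only [mem_mul, mem_one, one_c, inv_one, mul_one]
      unfold Xor
      tauto)
  (fun x => by
    apply W.ext
    · simp only [mul_c, one_c, inv_c, mul_inv_cancel]
    · ext e
      simp only [mem_mul, mem_inv, mem_one, inv_c, inv_inv]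
      unfold Xor
      tauto)

/-- the edge between a nonempty reduced word and its tail -/
def edgeOf : L → E
  | [] => (1, 0)
  | (i, true) :: w => (FreeGroup.mk w, i)
  | (i, false) :: w => (FreeGroup.mk ((i, false) :: w), i)

/-- the outer end of an edge, in terms of the reduced word of its first end -/
def outAux (w : L) (i : Fin 2) : L := if w.head? = some (i, false) then w else (i, true) :: w

/-- the outer end of an edge -/
def outOf (e : E) : L := outAux e.1.toWord e.2

lemma toWord_of_red {w : L} (h : IsReduced w) : (FreeGroup.mk w).toWord = w := by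
  rw [toWord_mk, h.reduce_eq]

lemma out_edge {w : L} (h : IsReduced w) (h1 : w ≠ []) : outOf (edgeOf w) = w := by
  rcases w with _ | ⟨⟨i, b⟩, w⟩
  · exact absurd rfl h1
  · cases b with
    | true =>
      have h2 := red_tail h
      change outAux (FreeGroup.mk w).toWord i = _
      rw [toWord_of_red h2]
      unfold outAux
      rw [if_neg]
      intro h3
      rcases w with _ | ⟨c, w⟩
      · simp at h3
      · rw [List.head?_cons, Option.some.injEq] at h3
        rw [h3, isReduced_cons_cons] at h
        have := h.1 rfl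
        simp at this
    | false =>
      change outAux (FreeGroup.mk ((i, false) :: w)).toWord i = _
      rw [toWord_of_red h]
      unfold outAux
      rw [if_pos]
      rfl

lemma edge_out (e : E) : edgeOf (outOf e) = e := by
  obtain ⟨g, i⟩ := e
  unfold outOf outAux
  split_ifs with h
  · simp only at h ⊢
    rcases hw : g.toWord with _ | ⟨c, w⟩
    · rw [hw] at h
      simp at h
    · rw [hw, List.head?_cons, Option.some.injEq] at h
      rw [h] at hw ⊢
      simp only [edgeOf]
      rw [← hw, mk_toWord]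
  · simp only [edgeOf]
    rw [mk_toWord]

lemma out_red (e : E) : IsReduced (outOf e) ∧ outOf e ≠ [] := by
  obtain ⟨g, i⟩ := e
  unfold outOf outAux
  have hg : IsReduced g.toWord := isReduced_toWord
  split_ifs with h
  · refine ⟨hg, ?_⟩
    simp only at h ⊢
    intro h2
    rw [h2] at h
    simp at h
  · refine ⟨?_, by simp⟩
    simp only at h ⊢
    rcases hw : g.toWord with _ | ⟨c, w⟩
    · exact IsReduced.singleton
    · rw [isReduced_cons_cons]
      rw [hw] at h hg
      refine ⟨?_, hg⟩
      simp only
      intro h3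
      rw [List.head?_cons, Option.some.injEq] at h
      obtain ⟨j, b⟩ := c
      simp only at h3
      subst h3
      cases b with
      | true => rfl
      | false => exact absurd rfl h

/-- the states are the elements of the group -/
def eqv : State ≃ W where
  toFun u := ⟨FreeGroup.mk u.pos, u.lamps.image edgeOf⟩
  invFun x := ⟨x.c.toWord, x.A.image outOf, isReduced_toWord, by
    intro e he
    rw [Finset.mem_image] at he
    obtain ⟨z, -, rfl⟩ := he
    exact out_red z⟩
  left_inv u := by
    refine State.ext' (toWord_of_red u.hpos) ?_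
    ext e
    simp only [Finset.mem_image]
    constructor
    · rintro ⟨_, ⟨z, hz, rfl⟩, rfl⟩
      rwa [out_edge (u.hlamps z hz).1 (u.hlamps z hz).2]
    · intro he
      exact ⟨_, ⟨e, he, rfl⟩, out_edge (u.hlamps e he).1 (u.hlamps e he).2⟩
  right_inv x := by
    refine W.ext mk_toWord ?_
    ext e
    simp only [Finset.mem_image]
    constructor
    · rintro ⟨_, ⟨z, hz, rfl⟩, rfl⟩
      rwa [edge_out]
    · intro he
      exact ⟨_, ⟨e, he, rfl⟩, edge_out e⟩

lemma mem_eqv (u : State) (e : E) : e ∈ (eqv u).A ↔ outOf e ∈ u.lamps := by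
  change e ∈ u.lamps.image edgeOf ↔ _
  rw [Finset.mem_image]
  constructor
  · rintro ⟨z, hz, rfl⟩
    rwa [out_edge (u.hlamps z hz).1 (u.hlamps z hz).2]
  · intro h
    exact ⟨_, h, edge_out e⟩

/-- the edge that is crossed by a generator from the root -/
def ed (a : Fin 2 × Bool) : E := if a.2 then (1, a.1) else (FreeGroup.mk [a], a.1)

/-- the generators: walk along an edge with or without switching its lamp -/
def genW (a : Fin 2 × Bool) (t : Bool) : W := ⟨FreeGroup.mk [a], if t then {ed a} else ∅⟩

lemma mem_genW (a : Fin 2 × Bool) (t : Bool) (e : E) : e ∈ (genW a t).A ↔ t = true ∧ e = ed a := by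
  unfold genW
  cases t <;> simp

/-- the generating set -/
def SW : Set W := Set.range (fun p : (Fin 2 × Bool) × Bool => genW p.1 p.2)

lemma cross (u v : State) (a : Fin 2 × Bool) (t : Bool) (w : L) (hw : IsReduced w ∧ w ≠ [])
    (hc : FreeGroup.mk v.pos = FreeGroup.mk [a] * FreeGroup.mk u.pos)
    (he : edgeOf w = ((ed a).1 * FreeGroup.mk u.pos, (ed a).2))
    (hl : ∀ z, (z ∈ v.lamps ↔ Xor (z ∈ u.lamps) (t = true ∧ z = w))) :
    eqv v = eqv u * genW a t := by
  refine W.ext hc ?_
  ext e
  rw [mem_eqv, mem_mul, mem_eqv, mem_genW, hl]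
  have h1 : outOf e = w ↔ (e.1 * (eqv u).c⁻¹, e.2) = ed a := by
    have h2 : (eqv u).c = FreeGroup.mk u.pos := rfl
    rw [h2]
    constructor
    · intro h
      have h3 : e = edgeOf w := by rw [← h, edge_out]
      rw [h3, he]
      simp only [mul_inv_cancel_right]
    · intro h
      have h3 : e = edgeOf w := by
        rw [he, ← h]
        simp only [inv_mul_cancel_right]
      rw [h3, out_edge hw.1 hw.2]
  rw [h1]

lemma edge_push (a : Fin 2 × Bool) (w : L) :
    edgeOf (a :: w) = ((ed a).1 * FreeGroup.mk w, (ed a).2) := by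
  obtain ⟨i, b⟩ := a
  cases b with
  | true => simp [edgeOf, ed]
  | false =>
    simp only [edgeOf, ed]
    simp

lemma mk_pop (i : Fin 2) (b : Bool) (w : L) :
    FreeGroup.mk w = FreeGroup.mk [(i, !b)] * FreeGroup.mk ((i, b) :: w) := by
  have h1 : FreeGroup.mk ((i, b) :: w) = FreeGroup.mk [(i, b)] * FreeGroup.mk w := rfl
  have h2 : FreeGroup.mk [(i, !b)] = (FreeGroup.mk [(i, b)])⁻¹ := rfl
  rw [h1, h2, inv_mul_cancel_left]

lemma edge_pop (i : Fin 2) (b : Bool) (w : L) :
    edgeOf ((i, b) :: w) = ((ed (i, !b)).1 * FreeGroup.mk ((i, b) :: w), (ed (i, !b)).2) := by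
  cases b with
  | true =>
    have h := mk_pop i true w
    simp only [Bool.not_true] at h
    simp only [edgeOf, ed, Bool.not_true]
    simp only [Bool.false_eq_true, if_false]
    rw [← h]
  | false =>
    simp only [edgeOf, ed, Bool.not_false]
    simp

lemma push_gen {u v : State} (h : Push u v) : ∃ a t, eqv v = eqv u * genW a t := by
  classical
  obtain ⟨s, h1, h2⟩ := h
  refine ⟨s, decide (¬ (v.pos ∈ v.lamps ↔ v.pos ∈ u.lamps)), cross u v s _ v.pos
    ⟨v.hpos, by rw [h1]; simp⟩ ?_ ?_ ?_⟩
  · rw [h1]
    rfl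
  · rw [h1]
    exact edge_push s u.pos
  · intro z
    rw [decide_eq_true_iff]
    unfold Xor
    by_cases hz : z = v.pos
    · subst hz
      tauto
    · have := h2 z hz
      tauto

/-- switching a lamp -/
def tog (A : Finset L) (w : L) (t : Bool) : Finset L := if t then symmDiff A {w} else A

lemma mem_tog (A : Finset L) (w : L) (t : Bool) (z : L) :
    z ∈ tog A w t ↔ Xor (z ∈ A) (t = true ∧ z = w) := by
  unfold tog Xor
  cases t
  · simp
  · simp only [if_true, Finset.mem_symmDiff, Finset.mem_singleton]
    tauto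

lemma tog_red {u : State} {w : L} (hw : IsReduced w ∧ w ≠ []) (t : Bool) :
    ∀ e ∈ tog u.lamps w t, IsReduced e ∧ e ≠ [] := by
  intro e he
  rw [mem_tog] at he
  rcases he with ⟨h1, -⟩ | ⟨⟨-, h1⟩, -⟩
  · exact u.hlamps e h1
  · rw [h1]
    exact hw

lemma gen_adj (u : State) (a : Fin 2 × Bool) (t : Bool) :
    ∃ v, stG.Adj u v ∧ eqv v = eqv u * genW a t := by
  obtain ⟨i, b⟩ := a
  by_cases h : ∃ w, u.pos = (i, !b) :: w
  · obtain ⟨w, hw⟩ := h
    have hpos : IsReduced u.pos ∧ u.pos ≠ [] := ⟨u.hpos, by rw [hw]; simp⟩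
    let v : State := ⟨w, tog u.lamps u.pos t, red_tail (s := (i, !b)) (by rw [← hw]; exact u.hpos),
      tog_red hpos t⟩
    refine ⟨v, Or.inr ⟨(i, !b), hw, fun e he => ?_⟩, ?_⟩
    · change _ ↔ e ∈ tog u.lamps u.pos t
      rw [mem_tog]
      unfold Xor
      tauto
    · refine cross u v (i, b) t u.pos hpos ?_ ?_ ?_
      · have := mk_pop i (!b) w
        rw [Bool.not_not] at this
        rw [hw]
        exact this
      · have := edge_pop i (!b) w
        rw [Bool.not_not] at this
        rw [hw]
        exact this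
      · intro z
        exact mem_tog _ _ _ _
  · have hred : IsReduced ((i, b) :: u.pos) := by
      rcases hp : u.pos with _ | ⟨⟨j, b'⟩, w⟩
      · exact IsReduced.singleton
      · rw [isReduced_cons_cons]
        refine ⟨?_, by rw [← hp]; exact u.hpos⟩
        simp only
        intro hij
        subst hij
        by_contra hbb
        apply h
        refine ⟨w, ?_⟩
        rw [hp]
        have : b' = !b := by
          cases b <;> cases b' <;> simp_all
        rw [this]
    have hpos : IsReduced ((i, b) :: u.pos) ∧ (i, b) :: u.pos ≠ [] := ⟨hred, by simp⟩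
    let v : State := ⟨(i, b) :: u.pos, tog u.lamps ((i, b) :: u.pos) t, hred, tog_red hpos t⟩
    refine ⟨v, Or.inl ⟨(i, b), rfl, fun e he => ?_⟩, ?_⟩
    · change e ∈ tog u.lamps ((i, b) :: u.pos) t ↔ _
      have he' : e ≠ (i, b) :: u.pos := he
      rw [mem_tog]
      unfold Xor
      tauto
    · refine cross u v (i, b) t _ hpos rfl (edge_push _ _) ?_
      intro z
      exact mem_tog _ _ _ _

/-- the group structure on the states -/
noncomputable instance : Group State := eqv.group

lemma eqv_mul (u v : State) : eqv (u * v) = eqv u * eqv v := by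
  change eqv (eqv.symm (eqv u * eqv v)) = _
  rw [Equiv.apply_symm_apply]

lemma one_eq : (1 : State) = st0 := by
  apply eqv.injective
  change eqv (eqv.symm 1) = _
  rw [Equiv.apply_symm_apply]
  exact W.ext rfl rfl

/-- the generating set -/
def SS : Set State := eqv ⁻¹' SW

lemma cay_eq : cay SS = stG := by
  have key : ∀ u v s : State, s ∈ SS → v = u * s → stG.Adj u v := by
    rintro u v s ⟨⟨a, t⟩, hs⟩ h
    obtain ⟨v', h1, h2⟩ := gen_adj u a t
    have h3 : v' = v := by
      apply eqv.injective
      rw [h2, h, eqv_mul, ← hs]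
    rw [← h3]
    exact h1
  have key' : ∀ u v : State, Push u v → ∃ s ∈ SS, v = u * s := by
    intro u v h
    obtain ⟨a, t, h1⟩ := push_gen h
    refine ⟨eqv.symm (genW a t), ?_, ?_⟩
    · change eqv (eqv.symm (genW a t)) ∈ SW
      rw [Equiv.apply_symm_apply]
      exact ⟨(a, t), rfl⟩
    · apply eqv.injective
      rw [h1, eqv_mul, Equiv.apply_symm_apply]
  ext u v
  constructor
  · rintro ⟨-, s, hs, h | h⟩
    · exact key u v s hs h
    · exact (key v u s hs h).symm
  · intro h
    refine ⟨h.ne, ?_⟩
    rcases h with h | h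
    · obtain ⟨s, hs, h1⟩ := key' u v h
      exact ⟨s, hs, Or.inl h1⟩
    · obtain ⟨s, hs, h1⟩ := key' v u h
      exact ⟨s, hs, Or.inr h1⟩

lemma SS_finite : SS.Finite :=
  (Set.finite_range _).preimage eqv.injective.injOn

lemma closure_SS : Subgroup.closure SS = ⊤ := by
  rw [eq_top_iff]
  intro g _
  have h1 := (dist_ell g).2
  rw [← cay_eq, ← one_eq, SimpleGraph.reachable_iff_reflTransGen] at h1
  induction h1 with
  | refl => exact Subgroup.one_mem _
  | tail _ h2 ih =>
    obtain ⟨-, s, hs, h3 | h3⟩ := h2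
    · rw [h3]
      exact Subgroup.mul_mem _ (ih trivial) (Subgroup.subset_closure hs)
    · have h4 := ih trivial
      rw [h3] at h4
      exact (Subgroup.mul_mem_cancel_right _ (Subgroup.subset_closure hs)).1 h4

/-- the abelianization of the free group -/
def phi : F →* Multiplicative (ℤ × ℤ) := FreeGroup.lift ![pt 1 0, pt 0 1]

/-- the map to `ℤ²` -/
noncomputable def prW : W →* Multiplicative (ℤ × ℤ) where
  toFun x := phi x.c
  map_one' := _root_.map_one phi
  map_mul' x y := by rw [mul_c, _root_.map_mul, mul_comm]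

/-- the map to `ℤ²` -/
noncomputable def pr : State →* Multiplicative (ℤ × ℤ) where
  toFun x := prW (eqv x)
  map_one' := by
    change prW (eqv (eqv.symm 1)) = 1
    rw [Equiv.apply_symm_apply, _root_.map_one]
  map_mul' x y := by rw [eqv_mul, _root_.map_mul]

lemma pr_surj : Function.Surjective pr := by
  intro q
  obtain ⟨a, b, rfl⟩ := exists_pt q
  refine ⟨eqv.symm ⟨FreeGroup.of 0 ^ a * FreeGroup.of 1 ^ b, ∅⟩, ?_⟩
  change prW (eqv (eqv.symm _)) = _
  rw [Equiv.apply_symm_apply]
  change phi (FreeGroup.of 0 ^ a * FreeGroup.of 1 ^ b) = _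
  rw [_root_.map_mul, map_zpow, map_zpow]
  unfold phi
  rw [FreeGroup.lift_apply_of, FreeGroup.lift_apply_of]
  unfold pt
  simp only [Matrix.cons_val_zero, Matrix.cons_val_one]
  rw [← ofAdd_zsmul, ← ofAdd_zsmul, ← ofAdd_add]
  simp

lemma phi_gen (i : Fin 2) (b : Bool) : phi (FreeGroup.mk [(i, b)]) =
    (if i = 0 then (if b then pt 1 0 else pt (-1) 0) else (if b then pt 0 1 else pt 0 (-1))) := by
  unfold phi
  rw [FreeGroup.lift_mk]
  fin_cases i <;> cases b <;> simp <;> rfl

lemma image_SS : pr '' SS = gridS := by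
  ext q
  constructor
  · rintro ⟨s, ⟨⟨⟨i, b⟩, t⟩, hs⟩, rfl⟩
    change prW (eqv s) ∈ gridS
    rw [← hs]
    change phi (FreeGroup.mk [(i, b)]) ∈ gridS
    rw [phi_gen]
    unfold gridS pt
    fin_cases i <;> cases b <;> simp
  · intro h
    have key : ∀ i b, phi (FreeGroup.mk [(i, b)]) ∈ pr '' SS := by
      intro i b
      refine ⟨eqv.symm (genW (i, b) false), ?_, ?_⟩
      · change eqv (eqv.symm _) ∈ SW
        rw [Equiv.apply_symm_apply]
        exact ⟨((i, b), false), rfl⟩
      · change prW (eqv (eqv.symm _)) = _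
        rw [Equiv.apply_symm_apply]
        rfl
    unfold gridS at h
    simp only [Set.mem_insert_iff, Set.mem_singleton_iff] at h
    rcases h with h | h | h | h
    · have := key 0 true
      rw [phi_gen] at this
      rw [h]
      exact this
    · have := key 0 false
      rw [phi_gen] at this
      rw [h]
      exact this
    · have := key 1 true
      rw [phi_gen] at this
      rw [h]
      exact this
    · have := key 1 false
      rw [phi_gen] at this
      rw [h]
      exact this

end Pool.Agent.Q33.RDE
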